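import Pool.Agent.Helper478_Gen.Windows
import Pool.Agent.Helper478_Surds.Range
import Pool.Agent.Helper478_Surds.Fin

/-!
# Weyl sums over windows for amplitudes growing exponentially
-/

set_option autoImplicit false

namespace Pool.Agent.Helper478.Gen

open Finset Filter
open Pool.Agent.H469R2.NK (e norm_e e_add e_zero conj_e)
open Pool.Agent.Helper478.Surds (ev_pow norm_sum_abs range_bd)

/-- sequences which grow exponentially -/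
def Grow (a : ℕ → ℝ) (J i₀ : ℕ) (c ρ C τ : ℝ) : Prop :=
  (∀ i, i₀ ≤ i → 3 * |a i| ≤ |a (i + J)|) ∧ (∀ i, i₀ ≤ i → c * ρ ^ i ≤ |a i|) ∧
    (∀ i, |a i| ≤ C * τ ^ i)

lemma grow_partial {a : ℕ → ℝ} {J i₀ : ℕ} {c ρ C τ : ℝ} (h : Grow a J i₀ c ρ C τ) (w : ℕ)
    (hw : i₀ ≤ w) : ∀ t : ℕ, ∑ i ∈ Icc 1 t, |a (w + J * i)| ≤ |a (w + J * (t + 1))| / 2 := by
  intro t
  induction t with
  | zero => simp; positivity
  | succ t ih =>
    rw [sum_Icc_succ_top (by omega)]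
    have h1 := h.1 (w + J * (t + 1)) (by omega)
    have h2 : w + J * (t + 1) + J = w + J * (t + 1 + 1) := by ring
    rw [h2] at h1
    linarith

lemma grow_lower {a : ℕ → ℝ} {J i₀ : ℕ} {c ρ C τ : ℝ} (h : Grow a J i₀ c ρ C τ) (w : ℕ)
    (hw : i₀ ≤ w) (ε : ℕ → ℤ) (hε : ∀ i, |ε i| ≤ 1) : ∀ k : ℕ, (∃ i ∈ Icc 1 k, ε i ≠ 0) →
    ∃ t ∈ Icc 1 k, |a (w + J * t)| / 2 ≤ |∑ i ∈ Icc 1 k, (ε i : ℝ) * a (w + J * i)| := by
  intro k
  induction k with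
  | zero =>
    rintro ⟨i, hi, _⟩
    simp at hi
  | succ k ih =>
    intro hex
    rw [sum_Icc_succ_top (by omega)]
    by_cases hk : ε (k + 1) = 0
    · obtain ⟨i, hi, hi0⟩ := hex
      rw [mem_Icc] at hi
      have hik : i ≠ k + 1 := by rintro rfl; exact hi0 hk
      obtain ⟨t, ht, hF⟩ := ih ⟨i, by rw [mem_Icc]; omega, hi0⟩
      rw [mem_Icc] at ht
      refine ⟨t, by rw [mem_Icc]; omega, ?_⟩
      rw [hk, Int.cast_zero, zero_mul, add_zero]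
      exact hF
    · refine ⟨k + 1, by rw [mem_Icc]; omega, ?_⟩
      have h1 := grow_partial h w hw k
      have h2 : |∑ i ∈ Icc 1 k, (ε i : ℝ) * a (w + J * i)| ≤ ∑ i ∈ Icc 1 k, |a (w + J * i)| := by
        refine (abs_sum_le_sum_abs _ _).trans (sum_le_sum fun i _ => ?_)
        rw [abs_mul]
        have : |(ε i : ℝ)| ≤ 1 := by exact_mod_cast hε i
        exact mul_le_of_le_one_left (abs_nonneg _) this
      have h3 : |(ε (k + 1) : ℝ) * a (w + J * (k + 1))| = |a (w + J * (k + 1))| := by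
        rw [abs_mul]
        have h4 : |ε (k + 1)| = 1 := le_antisymm (hε _) (Int.one_le_abs hk)
        have : |(ε (k + 1) : ℝ)| = 1 := by exact_mod_cast h4
        rw [this, one_mul]
      have h5 := abs_sub_abs_le_abs_add ((ε (k + 1) : ℝ) * a (w + J * (k + 1)))
        (∑ i ∈ Icc 1 k, (ε i : ℝ) * a (w + J * i))
      rw [add_comm (∑ i ∈ Icc 1 k, (ε i : ℝ) * a (w + J * i))]
      linarith

lemma grow_upper {a : ℕ → ℝ} {J i₀ : ℕ} {c ρ C τ : ℝ} (h : Grow a J i₀ c ρ C τ) (w : ℕ)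
    (hw : i₀ ≤ w) (ε : ℕ → ℤ) (hε : ∀ i, |ε i| ≤ 1) (k : ℕ) (hk : 1 ≤ k) (hC : 0 ≤ C) (hτ : 0 ≤ τ) :
    |∑ i ∈ Icc 1 k, (ε i : ℝ) * a (w + J * i)| ≤ 2 * C * τ ^ (w + J * k) := by
  obtain ⟨k, rfl⟩ : ∃ k', k = k' + 1 := ⟨k - 1, by omega⟩
  have h2 : |∑ i ∈ Icc 1 (k + 1), (ε i : ℝ) * a (w + J * i)| ≤ ∑ i ∈ Icc 1 (k + 1), |a (w + J * i)| := by
    refine (abs_sum_le_sum_abs _ _).trans (sum_le_sum fun i _ => ?_)
    rw [abs_mul]
    have : |(ε i : ℝ)| ≤ 1 := by exact_mod_cast hε i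
    exact mul_le_of_le_one_left (abs_nonneg _) this
  have h0 : ∑ i ∈ Icc 1 (k + 1), |a (w + J * i)| = ∑ i ∈ Icc 1 k, |a (w + J * i)| +
      |a (w + J * (k + 1))| := sum_Icc_succ_top (by omega) _
  have h1 := grow_partial h w hw k
  have h3 := h.2.2 (w + J * (k + 1))
  have h4 : 0 ≤ C * τ ^ (w + J * (k + 1)) := by positivity
  linarith

/-- **windows for growing amplitudes** -/
theorem growW : ∃ γ : ℝ, 0 < γ ∧ γ ≤ 1 / 20 ∧ ∀ θ : ℝ, -1 ≤ θ → θ < 1 → θ ≠ 0 → ∀ (ι : Type)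
    (A : Finset ι) (a : ι → ℕ → ℝ) (J i₀ : ℕ) (c ρ C τ : ℝ), 1 ≤ J → 0 < c → 1 < ρ → 1 ≤ C → 1 ≤ τ →
    (∀ α ∈ A, Grow (a α) J i₀ c ρ C τ) → ∀ δ : ℝ, 0 < δ → ∀ ε : ℝ, 0 < ε → ∃ N₀ : ℕ, ∀ N : ℕ, N₀ ≤ N →
      (({n : ℕ | N < n ∧ n ≤ 2 * N ∧ ∃ u v : ℕ, (Real.log N) ^ (1 - γ) ≤ (v : ℝ) - u ∧
        (v : ℝ) ≤ (Real.log N) ^ (1 + γ) ∧ i₀ + J ≤ u ∧ (N : ℝ) ^ δ ≤ ρ ^ u * (N : ℝ) ^ θ ∧
        ∃ α ∈ A, ε * ((v : ℝ) - u) < ‖∑ i ∈ Icc 1 (v - u), e (a α (u + i) * (n : ℝ) ^ θ)‖}.ncard : ℕ) : ℝ) ≤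
          N * Real.exp (-√(Real.log N)) := by
  classical
  obtain ⟨γ₀, hγ0, hγ1, hrange⟩ := range_bd
  refine ⟨γ₀ / 2, by positivity, by linarith, ?_⟩
  intro θ h1 h2 h3 ι A a J i₀ c ρ C τ hJ hc hρ hC hτ hA δ hδ ε' hε'
  -- parameters
  set ε : ℝ := min ε' 1 with hε
  have hε0 : 0 < ε := lt_min hε' one_pos
  have hε1 : ε ≤ 1 := min_le_right _ _
  have hεε' : ε ≤ ε' := min_le_left _ _
  obtain ⟨η, hη⟩ : ∃ η : ℝ, η = ε / 2 := ⟨_, rfl⟩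
  have hη0 : 0 < η := by rw [hη]; positivity
  have hη1 : η ≤ 1 := by rw [hη]; linarith
  have hρ0 : 0 < ρ := by linarith
  obtain ⟨N₁, hN₁⟩ := hrange θ h1 h2 h3 (δ / 2) (by positivity)
  obtain ⟨D, hD⟩ : ∃ D : ℝ, D = c / (2 * ρ ^ J) := ⟨_, rfl⟩
  have hD0 : 0 < D := by rw [hD]; positivity
  obtain ⟨Q, hQ⟩ : ∃ Q : ℝ, Q = (A.card : ℝ) + 1 := ⟨_, rfl⟩
  have hA0 : (0 : ℝ) ≤ (A.card : ℝ) := Nat.cast_nonneg _
  have hQ1 : 1 ≤ Q := by rw [hQ]; linarith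
  have hlτ : 0 ≤ Real.log τ := Real.log_nonneg hτ
  -- eventual inequalities
  have ev1 : ∀ᶠ y : ℝ in atTop, Real.log (2 * C) ≤ y := eventually_ge_atTop _
  have ev2 : ∀ᶠ y : ℝ in atTop, (Real.log τ + 2) * y ^ (1 + γ₀ / 2) ≤ y ^ (1 + γ₀) :=
    ev_pow _ _ _ (by linarith)
  have ev3 : ∀ᶠ y : ℝ in atTop, 1 * y ^ (1 : ℝ) ≤ y ^ (1 + γ₀ / 2) := ev_pow _ _ _ (by linarith)
  have ev4 : ∀ᶠ y : ℝ in atTop, (-Real.log D * (2 / δ)) ≤ y := eventually_ge_atTop _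
  have ev5 : ∀ᶠ y : ℝ in atTop, (16 / η ^ 2 * 2) * y ^ (1 / 2 : ℝ) ≤ y ^ (1 - 3 * γ₀) :=
    ev_pow _ _ _ (by linarith)
  have ev6 : ∀ᶠ y : ℝ in atTop, 8 * Q * (2 * y ^ 2) * y ≤ Real.exp (y ^ (1 / 2 : ℝ)) := by
    have t1 := Real.tendsto_pow_mul_exp_neg_atTop_nhds_zero 6
    have t2 := t1.comp (tendsto_rpow_atTop (by norm_num : (0 : ℝ) < 1 / 2))
    have t3 := t2.eventually (ge_mem_nhds (show (0 : ℝ) < 1 / (16 * Q) by positivity))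
    filter_upwards [t3, eventually_ge_atTop 1] with y hy hy1
    have hy0 : 0 < y := by linarith
    simp only [Function.comp] at hy
    have f1 : (y ^ (1 / 2 : ℝ)) ^ 6 = y ^ 3 := by
      rw [← Real.rpow_natCast, ← Real.rpow_mul hy0.le, ← Real.rpow_natCast]
      norm_num
    rw [f1, Real.exp_neg, ← div_eq_mul_inv, div_le_div_iff₀ (Real.exp_pos _) (by positivity)] at hy
    have f2 : 8 * Q * (2 * y ^ 2) * y = y ^ 3 * (16 * Q) := by ring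
    rw [f2]; linarith
  have ev7 : ∀ᶠ y : ℝ in atTop, (2 * J : ℝ) * y ^ (1 - 3 * γ₀) ≤ y ^ (1 - γ₀ / 2) :=
    ev_pow _ _ _ (by linarith)
  have ev8 : ∀ᶠ y : ℝ in atTop, 2 * y ^ (0 : ℝ) ≤ y ^ (1 - 3 * γ₀) := ev_pow _ _ _ (by linarith)
  have hlog : Tendsto (fun N : ℕ => Real.log N) atTop atTop :=
    Real.tendsto_log_atTop.comp tendsto_natCast_atTop_atTop
  have hev := hlog.eventually (((ev1.and ev2).and (ev3.and ev4)).and ((ev5.and ev6).and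
    ((ev7.and ev8).and (eventually_ge_atTop 10))))
  obtain ⟨N₀, hN₀⟩ := eventually_atTop.1 (hev.and (eventually_ge_atTop (max N₁ 2)))
  refine ⟨N₀, ?_⟩
  intro N hN
  obtain ⟨⟨⟨⟨q1, q2⟩, q3, q4⟩, ⟨q5, q6⟩, ⟨q7, q7'⟩, q8⟩, q9⟩ := hN₀ N hN
  obtain ⟨y, hy⟩ : ∃ y : ℝ, y = Real.log N := ⟨_, rfl⟩
  rw [← hy] at q1 q2 q3 q4 q5 q6 q7 q7' q8 ⊢
  have hy0 : 0 < y := by linarith
  have hy1 : 1 ≤ y := by linarith
  have hN2 : 2 ≤ N := (le_max_right _ _).trans q9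
  have hNN₁ : N₁ ≤ N := (le_max_left _ _).trans q9
  have hN0 : (0 : ℝ) < N := by exact_mod_cast (by omega : 0 < N)
  have hN1 : (1 : ℝ) ≤ N := by exact_mod_cast (by omega : 1 ≤ N)
  have hNθ : 0 < (N : ℝ) ^ θ := Real.rpow_pos_of_pos hN0 _
  rw [Real.rpow_one, one_mul] at q3
  rw [Real.rpow_zero, mul_one] at q7'
  -- the block length
  obtain ⟨m, hm⟩ : ∃ m : ℕ, m = ⌊y ^ (1 - 3 * γ₀)⌋₊ := ⟨_, rfl⟩
  have hm1 : 1 ≤ m := by
    rw [hm]; exact Nat.le_floor (by push_cast; linarith)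
  have hmle : (m : ℝ) ≤ y ^ (1 - 3 * γ₀) := by rw [hm]; exact Nat.floor_le (by positivity)
  have hmge : y ^ (1 - 3 * γ₀) / 2 ≤ m := by
    have := Nat.lt_floor_add_one (y ^ (1 - 3 * γ₀))
    rw [← hm] at this
    linarith
  have hmy : (m : ℝ) ≤ y := by
    refine hmle.trans ?_
    calc y ^ (1 - 3 * γ₀) ≤ y ^ (1 : ℝ) := Real.rpow_le_rpow_of_exponent_le hy1 (by linarith)
      _ = y := Real.rpow_one _
  set W : ℝ := N * Real.exp (-(2 * y ^ (1 - 3 * γ₀))) with hW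
  have hW0 : 0 ≤ W := by positivity
  have h2W : ∀ k : ℕ, k < 2 * m → 2 ^ k * W ≤ N := by
    intro k hk
    have e1 : (2 : ℝ) ^ k ≤ Real.exp (2 * y ^ (1 - 3 * γ₀)) := by
      have hk' : (k : ℝ) ≤ 2 * m := by exact_mod_cast hk.le
      calc (2 : ℝ) ^ k ≤ (Real.exp 1) ^ k := by
            apply pow_le_pow_left₀ (by norm_num)
            have := Real.exp_one_gt_d9; linarith
        _ = Real.exp k := by rw [← Real.exp_nat_mul, mul_one]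
        _ ≤ Real.exp (2 * y ^ (1 - 3 * γ₀)) := Real.exp_le_exp.2 (by linarith)
    calc (2 : ℝ) ^ k * W ≤ Real.exp (2 * y ^ (1 - 3 * γ₀)) * W := by gcongr
      _ = N * (Real.exp (2 * y ^ (1 - 3 * γ₀)) * Real.exp (-(2 * y ^ (1 - 3 * γ₀)))) := by rw [hW]; ring
      _ = N := by rw [← Real.exp_add, add_neg_cancel, Real.exp_zero, mul_one]
  let ν : ℕ → ℝ := fun n => ((N + n : ℕ) : ℝ) ^ θ
  obtain ⟨H, hH⟩ : ∃ H : ℕ, H = ⌊y ^ (1 + γ₀ / 2)⌋₊ := ⟨_, rfl⟩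
  have hHle : (H : ℝ) ≤ y ^ (1 + γ₀ / 2) := by rw [hH]; exact Nat.floor_le (by positivity)
  have hsign : ∀ α ∈ A, ∀ w k : ℕ, m ≤ k → k < 2 * m →
      (i₀ ≤ w ∧ (N : ℝ) ^ δ ≤ ρ ^ (w + J) * (N : ℝ) ^ θ) → w + J * k ≤ H →
      SignBd (Ioc 0 N) (fun i n => a α (w + J * i) * ν n) k W := by
    intro α hα w k hk1 hk2 hP hwk ε hε1 hε2
    have hk1' : 1 ≤ k := hm1.trans hk1
    obtain ⟨F, hF⟩ : ∃ F : ℝ, F = ∑ i ∈ Icc 1 k, (ε i : ℝ) * a α (w + J * i) := ⟨_, rfl⟩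
    have hFn : ∀ n, ∑ i ∈ Icc 1 k, (ε i : ℝ) * (a α (w + J * i) * ν n) = F * ν n := by
      intro n
      rw [hF, sum_mul]
      refine sum_congr rfl fun i _ => ?_
      ring
    simp_rw [hFn]
    rw [norm_sum_abs]
    obtain ⟨t, ht, htF⟩ := grow_lower (hA α hα) w hP.1 ε hε1 k hε2
    have hup := grow_upper (hA α hα) w hP.1 ε hε1 k hk1' (by linarith) (by linarith)
    rw [← hF] at htF hup
    have hlow : c * ρ ^ w / 2 ≤ |F| := by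
      have g1 := (hA α hα).2.1 (w + J * t) (by omega)
      have g2 : ρ ^ w ≤ ρ ^ (w + J * t) := pow_le_pow_right₀ hρ.le (by omega)
      have g3 : c * ρ ^ w ≤ c * ρ ^ (w + J * t) := by gcongr
      linarith
    have hF0 : 0 < |F| := lt_of_lt_of_le (by positivity) hlow
    have hW' : W = N * Real.exp (-(2 * Real.log N ^ (1 - 3 * γ₀))) := by rw [hW, hy]
    rw [hW']
    refine hN₁ N N |F| hNN₁ le_rfl hF0 ?_ ?_
    · have f2 : (N : ℝ) ^ (δ / 2) ≤ D * (N : ℝ) ^ δ := by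
        have g1 : (N : ℝ) ^ δ = (N : ℝ) ^ (δ / 2) * (N : ℝ) ^ (δ / 2) := by
          rw [← Real.rpow_add hN0]; congr 1; ring
        have g2 : 1 ≤ D * (N : ℝ) ^ (δ / 2) := by
          rw [Real.rpow_def_of_pos hN0, ← hy]
          have g3 : D = Real.exp (Real.log D) := (Real.exp_log hD0).symm
          rw [g3, ← Real.exp_add]
          apply Real.one_le_exp
          have g4 := mul_le_mul_of_nonneg_right q4 (by positivity : 0 ≤ δ / 2)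
          have g5 : -Real.log D * (2 / δ) * (δ / 2) = -Real.log D := by field_simp
          rw [g5] at g4
          linarith
        rw [g1]
        have g6 : 0 < (N : ℝ) ^ (δ / 2) := Real.rpow_pos_of_pos hN0 _
        nlinarith
      calc (N : ℝ) ^ (δ / 2) ≤ D * (N : ℝ) ^ δ := f2
        _ ≤ D * (ρ ^ (w + J) * (N : ℝ) ^ θ) := by gcongr; exact hP.2
        _ = (c * ρ ^ w / 2) * (N : ℝ) ^ θ := by
            rw [hD, pow_add]; field_simp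
        _ ≤ |F| * (N : ℝ) ^ θ := by gcongr
    · rw [← hy]
      have f1 : τ ^ (w + J * k) ≤ Real.exp (Real.log τ * y ^ (1 + γ₀ / 2)) := by
        have g1 : τ ^ (w + J * k) ≤ τ ^ H := pow_le_pow_right₀ hτ hwk
        refine g1.trans ?_
        have g2 : τ ^ H = Real.exp (H * Real.log τ) := by
          rw [Real.exp_nat_mul, Real.exp_log (by linarith)]
        rw [g2]
        apply Real.exp_le_exp.2
        rw [mul_comm]
        gcongr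
      have f2 : (N : ℝ) ^ θ ≤ Real.exp y := by
        rw [Real.rpow_def_of_pos hN0, ← hy]
        apply Real.exp_le_exp.2
        nlinarith
      have f3 : 2 * C = Real.exp (Real.log (2 * C)) := (Real.exp_log (by linarith)).symm
      calc |F| * (N : ℝ) ^ θ ≤ (2 * C * Real.exp (Real.log τ * y ^ (1 + γ₀ / 2))) * Real.exp y := by
            have g1 : |F| ≤ 2 * C * Real.exp (Real.log τ * y ^ (1 + γ₀ / 2)) :=
              hup.trans (mul_le_mul_of_nonneg_left f1 (by linarith))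
            exact mul_le_mul g1 f2 hNθ.le (by positivity)
        _ = Real.exp (Real.log (2 * C) + Real.log τ * y ^ (1 + γ₀ / 2) + y) := by
            rw [f3, ← Real.exp_add, ← Real.exp_add, ← f3]
        _ ≤ Real.exp (y ^ (1 + γ₀)) := by
            apply Real.exp_le_exp.2
            have : (Real.log τ + 2) * y ^ (1 + γ₀ / 2) =
              Real.log τ * y ^ (1 + γ₀ / 2) + 2 * y ^ (1 + γ₀ / 2) := by ring
            linarith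
  obtain ⟨T, hTcard, hT⟩ := absW A (fun α i n => a α i * ν n)
    (fun _ w => i₀ ≤ w ∧ (N : ℝ) ^ δ ≤ ρ ^ (w + J) * (N : ℝ) ^ θ) (fun _ => H) N J m η W hJ hm1
    hη0 hη1 hW0 h2W hsign
  have hsub : {n : ℕ | N < n ∧ n ≤ 2 * N ∧ ∃ u v : ℕ, y ^ (1 - γ₀ / 2) ≤ (v : ℝ) - u ∧
        (v : ℝ) ≤ y ^ (1 + γ₀ / 2) ∧ i₀ + J ≤ u ∧ (N : ℝ) ^ δ ≤ ρ ^ u * (N : ℝ) ^ θ ∧
        ∃ α ∈ A, ε' * ((v : ℝ) - u) < ‖∑ i ∈ Icc 1 (v - u), e (a α (u + i) * (n : ℝ) ^ θ)‖} ⊆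
        ((T.image fun n => N + n : Finset ℕ) : Set ℕ) := by
    rintro n ⟨a1, a2, u, v, a3, a4, a5, a6, α, hα, a7⟩
    rw [Finset.mem_coe, mem_image]
    refine ⟨n - N, ?_, by omega⟩
    by_contra hcon
    refine absurd a7 (not_lt.2 ?_)
    have hnN : n - N ∈ Ioc 0 N := by rw [mem_Ioc]; omega
    have hνn : ν (n - N) = (n : ℝ) ^ θ := by
      simp only [ν]
      rw [show N + (n - N) = n by omega]
    have hJm : u + J * (m + 1) ≤ v := by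
      have g1 : (J : ℝ) * (m + 1) ≤ (v : ℝ) - u := by
        have hJ0 : (0 : ℝ) ≤ J := Nat.cast_nonneg _
        calc (J : ℝ) * (m + 1) ≤ J * (y ^ (1 - 3 * γ₀) + y ^ (1 - 3 * γ₀)) := by
              gcongr
              linarith
          _ = 2 * J * y ^ (1 - 3 * γ₀) := by ring
          _ ≤ y ^ (1 - γ₀ / 2) := q7
          _ ≤ _ := a3
      have g2 : ((u + J * (m + 1) : ℕ) : ℝ) ≤ v := by push_cast; linarith
      exact_mod_cast g2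
    have hvH : v ≤ H := by rw [hH]; exact Nat.le_floor a4
    have g := hT (n - N) hnN hcon α hα u v (by omega) (by
      intro w hw
      refine ⟨by omega, a6.trans ?_⟩
      gcongr
      · exact hρ.le) hvH hJm
    simp only [hνn] at g
    refine g.trans ?_
    have : 2 * η ≤ ε' := by rw [hη]; linarith
    have h0 : 0 ≤ (v : ℝ) - u := le_trans (Real.rpow_nonneg hy0.le _) a3
    exact mul_le_mul_of_nonneg_right this h0
  have hcard := Set.ncard_le_ncard hsub (Finset.finite_toSet _)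
  rw [Set.ncard_coe_finset] at hcard
  have hfin : (({n : ℕ | N < n ∧ n ≤ 2 * N ∧ ∃ u v : ℕ, y ^ (1 - γ₀ / 2) ≤ (v : ℝ) - u ∧
        (v : ℝ) ≤ y ^ (1 + γ₀ / 2) ∧ i₀ + J ≤ u ∧ (N : ℝ) ^ δ ≤ ρ ^ u * (N : ℝ) ^ θ ∧
        ∃ α ∈ A, ε' * ((v : ℝ) - u) < ‖∑ i ∈ Icc 1 (v - u), e (a α (u + i) * (n : ℝ) ^ θ)‖}.ncard : ℕ) : ℝ) ≤
          T.card := by
    have := hcard.trans card_image_le
    exact_mod_cast this
  refine hfin.trans (hTcard.trans ?_)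
  rw [sum_const, nsmul_eq_mul]
  have g2 : (H : ℝ) + 1 ≤ 2 * y ^ 2 := by
    have g3 : y ^ (1 + γ₀ / 2) ≤ y ^ 2 := by
      rw [← Real.rpow_natCast y 2]
      exact Real.rpow_le_rpow_of_exponent_le hy1 (by push_cast; linarith)
    nlinarith
  have g4 : Real.exp (-(η ^ 2 * m / 8)) ≤ Real.exp (-(2 * y ^ (1 / 2 : ℝ))) := by
    apply Real.exp_le_exp.2
    have f1 : 16 / η ^ 2 * 2 * y ^ (1 / 2 : ℝ) * (η ^ 2 / 16) = 2 * y ^ (1 / 2 : ℝ) := by field_simp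
    have f2 := mul_le_mul_of_nonneg_right q5 (by positivity : 0 ≤ η ^ 2 / 16)
    rw [f1] at f2
    have f3 : η ^ 2 / 16 * y ^ (1 - 3 * γ₀) ≤ η ^ 2 * m / 8 := by
      have : η ^ 2 * (y ^ (1 - 3 * γ₀) / 2) ≤ η ^ 2 * m := by gcongr
      linarith
    linarith
  have hsqrt : √y = y ^ (1 / 2 : ℝ) := Real.sqrt_eq_rpow y
  rw [hsqrt]
  obtain ⟨E, hE⟩ : ∃ E : ℝ, E = Real.exp (y ^ (1 / 2 : ℝ)) := ⟨_, rfl⟩
  have hE0 : 0 < E := by rw [hE]; exact Real.exp_pos _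
  have hE2 : Real.exp (-(2 * y ^ (1 / 2 : ℝ))) = 1 / E ^ 2 := by
    have e1 : E ^ 2 = Real.exp (2 * y ^ (1 / 2 : ℝ)) := by
      rw [hE, ← Real.exp_nat_mul]; push_cast; rfl
    rw [e1, Real.exp_neg]
    exact (one_div _).symm
  have hE1 : Real.exp (-(y ^ (1 / 2 : ℝ))) = 1 / E := by
    rw [Real.exp_neg, hE]
    exact (one_div _).symm
  rw [← hE] at q6
  rw [hE2] at g4
  rw [hE1]
  have hAQ : (A.card : ℝ) ≤ Q := by rw [hQ]; linarith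
  obtain ⟨c1, hc1⟩ : ∃ c : ℝ, c = (A.card : ℝ) := ⟨_, rfl⟩
  obtain ⟨c2, hc2⟩ : ∃ c : ℝ, c = (H : ℝ) + 1 := ⟨_, rfl⟩
  obtain ⟨c3, hc3⟩ : ∃ c : ℝ, c = (m : ℝ) := ⟨_, rfl⟩
  obtain ⟨c4, hc4⟩ : ∃ c : ℝ, c = Real.exp (-(η ^ 2 * m / 8)) := ⟨_, rfl⟩
  have p1 : 0 ≤ c1 := by rw [hc1]; exact hA0
  have p2 : 0 ≤ c2 := by rw [hc2]; positivity
  have p3 : 0 ≤ c3 := by rw [hc3]; positivity
  have p4 : 0 ≤ c4 := by rw [hc4]; positivity
  rw [← hc1] at hAQ ⊢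
  rw [← hc2] at g2 ⊢
  rw [← hc4] at g4 ⊢
  rw [← hc3] at hmy ⊢
  obtain ⟨M, hM⟩ : ∃ M : ℝ, M = (N : ℝ) := ⟨_, rfl⟩
  rw [← hM] at hN0 ⊢
  have hQ0 : 0 ≤ Q := by linarith
  calc c1 * (c2 * (c3 * (8 * M * c4))) ≤ Q * ((2 * y ^ 2) * (y * (8 * M * (1 / E ^ 2)))) := by
        gcongr
    _ = (8 * Q * (2 * y ^ 2) * y) * (M * (1 / E ^ 2)) := by ring
    _ ≤ E * (M * (1 / E ^ 2)) := by
        apply mul_le_mul_of_nonneg_right q6
        positivity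
    _ = M * (1 / E) := by field_simp

end Pool.Agent.Helper478.Gen
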