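import Pool.Agent.Helper478_Gen.Grow
import Pool.Agent.Helper478_Joint.ET

/-!
# Joint distribution of `(x_j β_j ^ i n ^ θ)_j` for almost all `n`
-/

set_option autoImplicit false

namespace Pool.Agent.Helper478.Gen

open Finset Filter
open Pool.Agent.H469R2.NK (e norm_e e_add e_zero conj_e)
open Pool.Agent.Helper478.Joint (weyl_box)

/-- the numbers `x j` which belong to the same base are independent -/
def Indep {r : ℕ} (β x : Fin r → ℝ) : Prop :=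
  ∀ (Z : Fin r → ℤ) (b : ℝ), ∑ j ∈ univ.filter (fun j => β j = b), (Z j : ℝ) * x j = 0 →
    ∀ j, β j = b → Z j = 0

/-- a single combination -/
lemma ratio {r : ℕ} (β x : Fin r → ℝ) (hβ : ∀ j, 1 < β j) (hx : Indep β x) (Z : Fin r → ℤ)
    (hZ : Z ≠ 0) : ∃ (i₁ : ℕ) (X b : ℝ), 0 < X ∧ (∃ j, β j = b) ∧ ∀ i, i₁ ≤ i →
      3 / 4 * (X * b ^ i) ≤ |∑ j, (Z j : ℝ) * x j * β j ^ i| ∧
      |∑ j, (Z j : ℝ) * x j * β j ^ i| ≤ 5 / 4 * (X * b ^ i) := by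
  classical
  have hne : (univ.filter fun j => Z j ≠ 0).Nonempty := by
    by_contra h
    rw [not_nonempty_iff_eq_empty] at h
    apply hZ
    funext j
    by_contra hj
    have : j ∈ (univ.filter fun j => Z j ≠ 0) := by simp only [mem_filter, mem_univ, true_and]; exact hj
    rw [h] at this
    exact absurd this (notMem_empty _)
  obtain ⟨j₀, hj₀, hmax⟩ := exists_max_image _ (fun j : Fin r => β j) hne
  rw [mem_filter] at hj₀
  obtain ⟨b, hb⟩ : ∃ b : ℝ, b = β j₀ := ⟨_, rfl⟩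
  have hb1 : 1 < b := by rw [hb]; exact hβ j₀
  have hb0 : 0 < b := by linarith
  obtain ⟨X, hX⟩ : ∃ X : ℝ, X = ∑ j ∈ univ.filter (fun j => β j = b), (Z j : ℝ) * x j := ⟨_, rfl⟩
  have hX0 : X ≠ 0 := by
    intro h
    rw [hX] at h
    exact hj₀.2 (hx Z b h j₀ hb.symm)
  have ht : Tendsto (fun i : ℕ => ∑ j, ((Z j : ℝ) * x j / X) * (β j / b) ^ i) atTop
      (nhds (∑ j, if β j = b then (Z j : ℝ) * x j / X else 0)) := by
    refine tendsto_finset_sum _ fun j _ => ?_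
    split_ifs with hj
    · rw [hj, div_self hb0.ne']
      simp only [one_pow, mul_one]
      exact tendsto_const_nhds
    · by_cases hZj : Z j = 0
      · rw [hZj]
        simp only [Int.cast_zero, zero_mul, zero_div]
        exact tendsto_const_nhds
      · have h1 : β j < b := by
          have h2 := hmax j (by simp only [mem_filter, mem_univ, true_and]; exact hZj)
          rw [← hb] at h2
          exact lt_of_le_of_ne h2 hj
        have h3 : Tendsto (fun i : ℕ => (β j / b) ^ i) atTop (nhds 0) := by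
          apply tendsto_pow_atTop_nhds_zero_of_lt_one
          · have := hβ j; positivity
          · rw [div_lt_one hb0]; exact h1
        have h4 := h3.const_mul ((Z j : ℝ) * x j / X)
        rw [mul_zero] at h4
        exact h4
  have hlim : (∑ j, if β j = b then (Z j : ℝ) * x j / X else 0) = 1 := by
    rw [← sum_filter, ← sum_div, ← hX, div_self hX0]
  rw [hlim] at ht
  have hev := (ht.eventually (le_mem_nhds (show (3 / 4 : ℝ) < 1 by norm_num))).and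
    (ht.eventually (ge_mem_nhds (show (1 : ℝ) < 5 / 4 by norm_num)))
  obtain ⟨i₁, hi₁⟩ := eventually_atTop.1 hev
  refine ⟨i₁, |X|, b, abs_pos.2 hX0, ⟨j₀, hb.symm⟩, ?_⟩
  intro i hi
  obtain ⟨g1, g2⟩ := hi₁ i hi
  have hbi : 0 < b ^ i := by positivity
  have e1 : ∑ j, (Z j : ℝ) * x j * β j ^ i = X * b ^ i * ∑ j, ((Z j : ℝ) * x j / X) * (β j / b) ^ i := by
    rw [mul_sum]
    refine sum_congr rfl fun j _ => ?_
    rw [div_pow]
    field_simp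
  rw [e1, abs_mul, abs_mul, abs_of_pos hbi]
  have hR : 0 < ∑ j, ((Z j : ℝ) * x j / X) * (β j / b) ^ i := by linarith
  rw [abs_of_pos hR]
  have hXb : 0 ≤ |X| * b ^ i := by positivity
  constructor
  · calc 3 / 4 * (|X| * b ^ i) = |X| * b ^ i * (3 / 4) := by ring
      _ ≤ _ := mul_le_mul_of_nonneg_left g1 hXb
  · calc |X| * b ^ i * ∑ j, ((Z j : ℝ) * x j / X) * (β j / b) ^ i ≤ |X| * b ^ i * (5 / 4) :=
          mul_le_mul_of_nonneg_left g2 hXb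
      _ = _ := by ring

/-- all combinations with small coefficients -/
lemma grow_all {r : ℕ} (β x : Fin r → ℝ) (hβ : ∀ j, 1 < β j) (hx : Indep β x) (K : ℕ) (ρ : ℝ)
    (hρ : 1 < ρ) (hρβ : ∀ j, ρ ≤ β j) : ∃ (J i₀ : ℕ) (c C τ : ℝ), 1 ≤ J ∧ 0 < c ∧ 1 ≤ C ∧ 1 ≤ τ ∧
      ∀ Z : Fin r → ℤ, Z ≠ 0 → (∀ j, |Z j| ≤ K) →
        Grow (fun i => ∑ j, (Z j : ℝ) * x j * β j ^ i) J i₀ c ρ C τ := by
  classical
  obtain ⟨J', hJ'⟩ := pow_unbounded_of_one_lt 5 hρ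
  have h := fun Z : Fin r → ℤ => fun hZ : Z ≠ 0 => ratio β x hβ hx Z hZ
  choose! i₁ X b hX hb hrat using h
  let 𝓩 : Finset (Fin r → ℤ) := Fintype.piFinset fun _ => Icc (-(K : ℤ)) K
  have hmem : ∀ Z : Fin r → ℤ, (∀ j, |Z j| ≤ K) → Z ∈ 𝓩 := by
    intro Z hZ
    simp only [𝓩, Fintype.mem_piFinset, mem_Icc]
    exact fun j => abs_le.1 (hZ j)
  obtain ⟨T, hT⟩ : ∃ T : ℝ, T = ∑ Z ∈ 𝓩, |1 / X Z| + 1 := ⟨_, rfl⟩
  have hT0 : 0 < T := by
    rw [hT]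
    have := sum_nonneg fun Z (_ : Z ∈ 𝓩) => abs_nonneg (1 / X Z)
    linarith
  refine ⟨J' + 1, ∑ Z ∈ 𝓩, i₁ Z, 3 / 4 * (1 / T), 1 + ∑ j, K * |x j|, 1 + ∑ j, β j, by omega,
    by positivity, ?_, ?_, ?_⟩
  · have : 0 ≤ ∑ j, (K : ℝ) * |x j| := sum_nonneg fun j _ => by positivity
    linarith
  · have : 0 ≤ ∑ j, β j := sum_nonneg fun j _ => by linarith [hβ j]
    linarith
  intro Z hZ0 hZK
  have hZm := hmem Z hZK
  have hρ0 : 0 < ρ := by linarith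
  have hρb : ρ ≤ b Z := by
    obtain ⟨j, hj⟩ := hb Z hZ0
    rw [← hj]; exact hρβ j
  have hb0 : 0 < b Z := by linarith
  have hXZ := hX Z hZ0
  have hi₁ : i₁ Z ≤ ∑ Z ∈ 𝓩, i₁ Z := single_le_sum (fun _ _ => Nat.zero_le _) hZm
  refine ⟨?_, ?_, ?_⟩
  · intro i hi
    have g1 := (hrat Z hZ0 i (by omega)).2
    have g2 := (hrat Z hZ0 (i + (J' + 1)) (by omega)).1
    have g3 : 5 ≤ b Z ^ (J' + 1) := by
      have g4 : ρ ^ J' ≤ ρ ^ (J' + 1) := pow_le_pow_right₀ hρ.le (by omega)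
      have g5 : ρ ^ (J' + 1) ≤ b Z ^ (J' + 1) := pow_le_pow_left₀ hρ0.le hρb _
      linarith
    have g6 : 0 ≤ X Z * b Z ^ i := by positivity
    calc 3 * |∑ j, (Z j : ℝ) * x j * β j ^ i| ≤ 3 * (5 / 4 * (X Z * b Z ^ i)) := by gcongr
      _ = 3 / 4 * (X Z * b Z ^ i) * 5 := by ring
      _ ≤ 3 / 4 * (X Z * b Z ^ i) * b Z ^ (J' + 1) := by gcongr
      _ = 3 / 4 * (X Z * b Z ^ (i + (J' + 1))) := by rw [pow_add]; ring
      _ ≤ _ := g2
  · intro i hi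
    have g1 := (hrat Z hZ0 i (by omega)).1
    refine le_trans ?_ g1
    have g2 : 1 / T ≤ X Z := by
      have g3 : 1 / X Z ≤ T := by
        have g4 := single_le_sum (f := fun Z => |1 / X Z|) (fun Z _ => abs_nonneg (1 / X Z)) hZm
        rw [abs_of_pos (by positivity)] at g4
        rw [hT]; linarith
      rw [div_le_iff₀ hT0]
      rw [div_le_iff₀ hXZ] at g3
      linarith
    have g5 : ρ ^ i ≤ b Z ^ i := pow_le_pow_left₀ hρ0.le hρb _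
    calc 3 / 4 * (1 / T) * ρ ^ i ≤ 3 / 4 * X Z * b Z ^ i := by gcongr
      _ = _ := by ring
  · intro i
    have hτj : ∀ j, β j ≤ 1 + ∑ j, β j := by
      intro j
      have := single_le_sum (f := fun j => β j) (fun j _ => by linarith [hβ j]) (mem_univ j)
      linarith
    have hτ0 : 0 ≤ 1 + ∑ j, β j := by
      have : 0 ≤ ∑ j, β j := sum_nonneg fun j _ => by linarith [hβ j]
      linarith
    calc |∑ j, (Z j : ℝ) * x j * β j ^ i| ≤ ∑ j, |(Z j : ℝ) * x j * β j ^ i| := abs_sum_le_sum_abs _ _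
      _ ≤ ∑ j, K * |x j| * (1 + ∑ j, β j) ^ i := by
          refine sum_le_sum fun j _ => ?_
          rw [abs_mul, abs_mul, abs_pow]
          have f1 : |(Z j : ℝ)| ≤ K := by exact_mod_cast hZK j
          have f2 : |β j| ≤ 1 + ∑ j, β j := by
            rw [abs_of_pos (by linarith [hβ j])]; exact hτj j
          gcongr
      _ = (∑ j, K * |x j|) * (1 + ∑ j, β j) ^ i := by rw [sum_mul]
      _ ≤ (1 + ∑ j, K * |x j|) * (1 + ∑ j, β j) ^ i := by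
          apply mul_le_mul_of_nonneg_right _ (by positivity)
          linarith

/-- **joint distribution, one base for each coordinate** -/
theorem powers : ∃ γ : ℝ, 0 < γ ∧ γ ≤ 1 / 20 ∧ ∀ θ : ℝ, -1 ≤ θ → θ < 0 → ∀ (r : ℕ) (β x : Fin r → ℝ),
    1 ≤ r → (∀ j, 1 < β j) → Indep β x → ∀ δ : ℝ, 0 < δ → ∀ ε : ℝ, 0 < ε →
      ∃ N₀ : ℕ, ∀ N : ℕ, N₀ ≤ N →
      (({n : ℕ | N < n ∧ n ≤ 2 * N ∧ ∃ u v : ℕ, (Real.log N) ^ (1 - γ) ≤ (v : ℝ) - u ∧
        (v : ℝ) ≤ (Real.log N) ^ (1 + γ) ∧ (∀ j, (N : ℝ) ^ δ ≤ (β j) ^ u * (N : ℝ) ^ θ) ∧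
        ∃ p q : Fin r → ℝ, (∀ j, 0 ≤ p j ∧ p j ≤ q j ∧ q j ≤ 1) ∧
          ε * ((v : ℝ) - u) < |(({i : ℕ | u < i ∧ i ≤ v ∧ ∀ j, p j ≤ Int.fract (x j * (n : ℝ) ^ θ *
            (β j) ^ i) ∧ Int.fract (x j * (n : ℝ) ^ θ * (β j) ^ i) < q j}.ncard : ℕ) : ℝ) -
              ((v : ℝ) - u) * ∏ j, (q j - p j)|}.ncard : ℕ) : ℝ) ≤
          N * Real.exp (-√(Real.log N)) := by
  classical
  obtain ⟨γ, hγ0, hγ1, hW⟩ := growW
  refine ⟨γ, hγ0, hγ1, ?_⟩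
  intro θ h1 h3 r β x hr hβ hx δ hδ ε hε
  obtain ⟨K, ε', hε', hbox⟩ := weyl_box r ε hε
  have : Nonempty (Fin r) := ⟨⟨0, by omega⟩⟩
  obtain ⟨jm, hjm⟩ := Finite.exists_min β
  obtain ⟨ρ, hρ⟩ : ∃ ρ : ℝ, ρ = β jm := ⟨_, rfl⟩
  have hρ1 : 1 < ρ := by rw [hρ]; exact hβ jm
  obtain ⟨J, i₀, c, C, τ, hJ, hc, hC, hτ, hgrow⟩ := grow_all β x hβ hx K ρ hρ1
    (fun j => by rw [hρ]; exact hjm j)
  let 𝓩 : Finset (Fin r → ℤ) := (Fintype.piFinset fun _ : Fin r => Icc (-(K : ℤ)) K).erase 0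
  obtain ⟨N₁, hN₁⟩ := hW θ h1 (by linarith) h3.ne (Fin r → ℤ) 𝓩
    (fun Z i => ∑ j, (Z j : ℝ) * x j * β j ^ i) J i₀ c ρ C τ hJ hc hρ1 hC hτ (by
      intro Z hZ
      simp only [𝓩, mem_erase, Fintype.mem_piFinset, mem_Icc] at hZ
      exact hgrow Z hZ.1 fun j => abs_le.2 (hZ.2 j)) δ hδ ε' hε'
  -- the windows begin late
  obtain ⟨N₂, hN₂⟩ : ∃ N₂ : ℕ, ∀ N : ℕ, N₂ ≤ N → ρ ^ (i₀ + J) < (N : ℝ) ^ (δ - θ) := by
    have h4 : Tendsto (fun N : ℕ => (N : ℝ) ^ (δ - θ)) atTop atTop :=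
      (tendsto_rpow_atTop (by linarith)).comp tendsto_natCast_atTop_atTop
    exact eventually_atTop.1 (h4.eventually (eventually_gt_atTop _))
  refine ⟨max N₁ (max N₂ 1), fun N hN => le_trans ?_ (hN₁ N ((le_max_left _ _).trans hN))⟩
  have hNN₂ : N₂ ≤ N := (le_max_left _ _).trans ((le_max_right _ _).trans hN)
  have hN1 : 1 ≤ N := (le_max_right _ _).trans ((le_max_right _ _).trans hN)
  have hN0 : (0 : ℝ) < N := by exact_mod_cast hN1
  have hfin : {n : ℕ | N < n ∧ n ≤ 2 * N ∧ ∃ u v : ℕ, (Real.log N) ^ (1 - γ) ≤ (v : ℝ) - u ∧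
        (v : ℝ) ≤ (Real.log N) ^ (1 + γ) ∧ i₀ + J ≤ u ∧ (N : ℝ) ^ δ ≤ ρ ^ u * (N : ℝ) ^ θ ∧
        ∃ α ∈ 𝓩, ε' * ((v : ℝ) - u) < ‖∑ i ∈ Icc 1 (v - u),
          e ((∑ j, (α j : ℝ) * x j * β j ^ (u + i)) * (n : ℝ) ^ θ)‖}.Finite :=
    (Set.finite_Iic (2 * N)).subset fun n hn => hn.2.1
  have hle := Set.ncard_le_ncard (s := {n : ℕ | N < n ∧ n ≤ 2 * N ∧ ∃ u v : ℕ,
        (Real.log N) ^ (1 - γ) ≤ (v : ℝ) - u ∧
        (v : ℝ) ≤ (Real.log N) ^ (1 + γ) ∧ (∀ j, (N : ℝ) ^ δ ≤ (β j) ^ u * (N : ℝ) ^ θ) ∧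
        ∃ p q : Fin r → ℝ, (∀ j, 0 ≤ p j ∧ p j ≤ q j ∧ q j ≤ 1) ∧
          ε * ((v : ℝ) - u) < |(({i : ℕ | u < i ∧ i ≤ v ∧ ∀ j, p j ≤ Int.fract (x j * (n : ℝ) ^ θ *
            (β j) ^ i) ∧ Int.fract (x j * (n : ℝ) ^ θ * (β j) ^ i) < q j}.ncard : ℕ) : ℝ) -
              ((v : ℝ) - u) * ∏ j, (q j - p j)|}) ?_ hfin
  · exact_mod_cast hle
  rintro n ⟨a1, a2, u, v, a3, a4, a5, p, q, hpq, a7⟩
  have hu : i₀ + J ≤ u := by
    by_contra hcon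
    push Not at hcon
    have g1 := a5 jm
    rw [← hρ] at g1
    have g2 := hN₂ N hNN₂
    have g3 : ρ ^ u ≤ ρ ^ (i₀ + J) := pow_le_pow_right₀ hρ1.le hcon.le
    have g4 : (N : ℝ) ^ (δ - θ) * (N : ℝ) ^ θ = (N : ℝ) ^ δ := by
      rw [← Real.rpow_add hN0]; congr 1; ring
    have g5 : 0 < (N : ℝ) ^ θ := Real.rpow_pos_of_pos hN0 _
    have g6 : ρ ^ u * (N : ℝ) ^ θ < (N : ℝ) ^ (δ - θ) * (N : ℝ) ^ θ :=
      mul_lt_mul_of_pos_right (g3.trans_lt g2) g5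
    rw [g4] at g6
    linarith
  refine ⟨a1, a2, u, v, a3, a4, hu, by rw [hρ]; exact a5 jm, ?_⟩
  by_contra hcon
  push Not at hcon
  refine absurd a7 (not_lt.2 ?_)
  rcases le_or_gt v u with hvu | huv
  · have hvu' : (v : ℝ) ≤ u := by exact_mod_cast hvu
    have e0 : {i : ℕ | u < i ∧ i ≤ v ∧ ∀ j, p j ≤ Int.fract (x j * (n : ℝ) ^ θ *
            (β j) ^ i) ∧ Int.fract (x j * (n : ℝ) ^ θ * (β j) ^ i) < q j} = ∅ := by
      ext i
      simp only [Set.mem_setOf_eq, Set.mem_empty_iff_false, iff_false]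
      rintro ⟨c1, c2, _⟩
      omega
    have hlog : 0 ≤ Real.log N := Real.log_natCast_nonneg N
    have hvu2 : (v : ℝ) - u = 0 := le_antisymm (by linarith)
      (le_trans (Real.rpow_nonneg hlog _) a3)
    rw [e0, hvu2]
    simp
  have e1 : {i : ℕ | u < i ∧ i ≤ v ∧ ∀ j, p j ≤ Int.fract (x j * (n : ℝ) ^ θ *
            (β j) ^ i) ∧ Int.fract (x j * (n : ℝ) ^ θ * (β j) ^ i) < q j} =
      (fun i => u + i) '' (((Icc 1 (v - u)).filter fun i => ∀ j, p j ≤ Int.fract (x j * (n : ℝ) ^ θ *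
            (β j) ^ (u + i)) ∧ Int.fract (x j * (n : ℝ) ^ θ * (β j) ^ (u + i)) < q j : Finset ℕ) :
              Set ℕ) := by
    ext i
    simp only [Set.mem_setOf_eq, Set.mem_image, Finset.coe_filter, mem_Icc]
    constructor
    · rintro ⟨c1, c2, c3⟩
      refine ⟨i - u, ⟨⟨by omega, by omega⟩, ?_⟩, by omega⟩
      rw [show u + (i - u) = i by omega]
      exact c3
    · rintro ⟨i', ⟨⟨c1, c2⟩, c3⟩, rfl⟩
      exact ⟨by omega, by omega, c3⟩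
  rw [e1, Set.ncard_image_of_injective _ (fun a b h => by simpa using h), Set.ncard_coe_finset]
  have hcard : (((Icc 1 (v - u)).card : ℕ) : ℝ) = (v : ℝ) - u := by
    rw [Nat.card_Icc, Nat.add_sub_cancel, Nat.cast_sub huv.le]
  have h := hbox ℕ (Icc 1 (v - u)) (fun i j => x j * (n : ℝ) ^ θ * (β j) ^ (u + i)) (by
    intro Z hZ0 hZ
    rw [hcard]
    have hα : Z ∈ 𝓩 := by
      simp only [𝓩, mem_erase, Fintype.mem_piFinset, mem_Icc]
      exact ⟨hZ0, fun j => abs_le.1 (hZ j)⟩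
    refine le_trans (le_of_eq ?_) (hcon _ hα)
    congr 1
    refine sum_congr rfl fun i _ => ?_
    congr 1
    rw [sum_mul]
    refine sum_congr rfl fun j _ => ?_
    ring) p q hpq
  rw [hcard] at h
  exact h

end Pool.Agent.Helper478.Gen
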