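import Pool.Agent.Helper478_Bases.LD

/-!
# Large deviations for sums `∑ e(f i n)`, from bounds for the sums over `n` of `e(∑ ε_i f i n)`
-/

set_option autoImplicit false

namespace Pool.Agent.Helper478.Gen

open Finset
open Pool.Agent.H469R2.NK (e norm_e e_add e_zero conj_e)
open Pool.Agent.Helper478.Bases (cos_eq exp_le_one_add)

/-- bounds for the exponential sums with the signed sums of the phases -/
def SignBd {σ : Type} (S : Finset σ) (f : ℕ → σ → ℝ) (m : ℕ) (W : ℝ) : Prop :=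
  ∀ ε : ℕ → ℤ, (∀ i, |ε i| ≤ 1) → (∃ i ∈ Icc 1 m, ε i ≠ 0) →
    ‖∑ n ∈ S, e (∑ i ∈ Icc 1 m, (ε i : ℝ) * f i n)‖ ≤ W

variable {σ : Type}

/-- the products -/
noncomputable def HG (lam φ : ℝ) (f : ℕ → σ → ℝ) (k : ℕ) (n : σ) : ℝ :=
  ∏ i ∈ Icc 1 k, (1 + lam * Real.cos (2 * Real.pi * (f i n + φ)))

lemma HG_zero (lam φ : ℝ) (f : ℕ → σ → ℝ) (n : σ) : HG lam φ f 0 n = 1 := by simp [HG]

lemma HG_succ (lam φ : ℝ) (f : ℕ → σ → ℝ) (k : ℕ) (n : σ) : HG lam φ f (k + 1) n =
    HG lam φ f k n * (1 + lam * Real.cos (2 * Real.pi * (f (k + 1) n + φ))) := by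
  rw [HG, prod_Icc_succ_top (by omega), ← HG]

lemma stepG (lam φ : ℝ) (f : ℕ → σ → ℝ) (k : ℕ) (n : σ) (g : ℝ) :
    ((HG lam φ f (k + 1) n : ℝ) : ℂ) * e g =
      ((HG lam φ f k n : ℝ) : ℂ) * e g +
      ((lam / 2 : ℝ) * e φ) * (((HG lam φ f k n : ℝ) : ℂ) * e (g + f (k + 1) n)) +
      ((lam / 2 : ℝ) * e (-φ)) * (((HG lam φ f k n : ℝ) : ℂ) * e (g - f (k + 1) n)) := by
  have h1 : e (g + f (k + 1) n) = e g * e (f (k + 1) n) := e_add _ _
  have h2 : e (g - f (k + 1) n) = e g * e (-(f (k + 1) n)) := by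
    rw [← e_add]; congr 1
  have h3 : e (f (k + 1) n + φ) = e (f (k + 1) n) * e φ := e_add _ _
  have h4 : e (-(f (k + 1) n + φ)) = e (-(f (k + 1) n)) * e (-φ) := by
    rw [← e_add]; congr 1; ring
  rw [HG_succ, h1, h2, Complex.ofReal_mul, Complex.ofReal_add, Complex.ofReal_mul, Complex.ofReal_one,
    cos_eq, h3, h4]
  push_cast
  ring

lemma sum_update (m k : ℕ) (hk : k + 1 ≤ m) (ε : ℕ → ℤ) (h0 : ε (k + 1) = 0) (c : ℤ) (F : ℕ → ℝ) :
    ∑ i ∈ Icc 1 m, ((Function.update ε (k + 1) c i : ℤ) : ℝ) * F i =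
      ∑ i ∈ Icc 1 m, (ε i : ℝ) * F i + c * F (k + 1) := by
  have hmem : k + 1 ∈ Icc 1 m := by rw [mem_Icc]; omega
  rw [← add_sum_erase _ _ hmem, ← add_sum_erase (Icc 1 m) (fun i => (ε i : ℝ) * F i) hmem]
  have h1 : ∑ i ∈ (Icc 1 m).erase (k + 1), ((Function.update ε (k + 1) c i : ℤ) : ℝ) * F i =
      ∑ i ∈ (Icc 1 m).erase (k + 1), (ε i : ℝ) * F i := by
    refine sum_congr rfl fun i hi => ?_
    rw [Function.update_of_ne (ne_of_mem_erase hi)]
  rw [h1, Function.update_self, h0]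
  push_cast
  ring

lemma twistedG (lam φ : ℝ) (h0 : 0 ≤ lam) (f : ℕ → σ → ℝ) (m : ℕ) (S : Finset σ) (W : ℝ)
    (hW : SignBd S f m W) : ∀ k : ℕ, k ≤ m → ∀ ε : ℕ → ℤ, (∀ i, |ε i| ≤ 1) → (∀ i, i ≤ k → ε i = 0) →
    (∃ i ∈ Icc 1 m, ε i ≠ 0) →
    ‖∑ n ∈ S, ((HG lam φ f k n : ℝ) : ℂ) * e (∑ i ∈ Icc 1 m, (ε i : ℝ) * f i n)‖ ≤
      (1 + lam) ^ k * W := by
  intro k
  induction k with
  | zero =>
    intro _ ε h1 _ h3
    simp only [HG_zero, Complex.ofReal_one, one_mul, pow_zero]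
    exact hW ε h1 h3
  | succ k ih =>
    intro hk ε h1 h2 h3
    simp_rw [stepG]
    rw [sum_add_distrib, sum_add_distrib, ← mul_sum, ← mul_sum]
    have hz : ε (k + 1) = 0 := h2 (k + 1) le_rfl
    have e1 := ih (by omega) ε h1 (fun i hi => h2 i (by omega)) h3
    have key : ∀ c : ℤ, |c| = 1 → ‖∑ n ∈ S, ((HG lam φ f k n : ℝ) : ℂ) *
        e (∑ i ∈ Icc 1 m, (ε i : ℝ) * f i n + c * f (k + 1) n)‖ ≤ (1 + lam) ^ k * W := by
      intro c hc
      have h4 := ih (by omega) (Function.update ε (k + 1) c) (by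
          intro i
          by_cases hi : i = k + 1
          · rw [hi, Function.update_self, hc]
          · rw [Function.update_of_ne hi]; exact h1 i) (by
          intro i hi
          rw [Function.update_of_ne (by omega)]
          exact h2 i (by omega)) (by
          refine ⟨k + 1, by rw [mem_Icc]; omega, ?_⟩
          rw [Function.update_self]
          intro h5
          rw [h5] at hc
          simp at hc)
      have h5 : ∀ n, ∑ i ∈ Icc 1 m, ((Function.update ε (k + 1) c i : ℤ) : ℝ) * f i n =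
          ∑ i ∈ Icc 1 m, (ε i : ℝ) * f i n + c * f (k + 1) n := fun n =>
        sum_update m k hk ε hz c (fun i => f i n)
      simp_rw [h5] at h4
      exact h4
    have e2 := key 1 (by norm_num)
    have e3 := key (-1) (by norm_num)
    simp only [Int.cast_one, one_mul, Int.cast_neg, neg_mul, ← sub_eq_add_neg] at e2 e3
    have hl2 : ∀ (ψ : ℝ) (w : ℂ), ‖((lam / 2 : ℝ) : ℂ) * e ψ * w‖ = lam / 2 * ‖w‖ := by
      intro ψ w
      rw [norm_mul, norm_mul, norm_e, mul_one, Complex.norm_real, Real.norm_eq_abs,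
        abs_of_nonneg (by positivity)]
    refine (norm_add_le _ _).trans ?_
    refine (add_le_add (norm_add_le _ _) le_rfl).trans ?_
    rw [hl2, hl2]
    have e4 := mul_le_mul_of_nonneg_left e2 (by positivity : 0 ≤ lam / 2)
    have e5 := mul_le_mul_of_nonneg_left e3 (by positivity : 0 ≤ lam / 2)
    rw [pow_succ]
    linarith

lemma HG_nonneg (lam φ : ℝ) (h0 : 0 ≤ lam) (h1 : lam ≤ 1) (f : ℕ → σ → ℝ) (k : ℕ) (n : σ) :
    0 ≤ HG lam φ f k n := by
  rw [HG]
  refine prod_nonneg fun i _ => ?_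
  have := Real.neg_one_le_cos (2 * Real.pi * (f i n + φ))
  nlinarith

lemma meanG (lam φ : ℝ) (h0 : 0 ≤ lam) (f : ℕ → σ → ℝ) (m : ℕ) (S : Finset σ) (W : ℝ)
    (hW : SignBd S f m W) : ∀ k : ℕ, k ≤ m →
    ∑ n ∈ S, HG lam φ f k n ≤ S.card + ((1 + lam) ^ k - 1) * W := by
  intro k
  induction k with
  | zero =>
    intro _
    simp [HG_zero]
  | succ k ih =>
    intro hk
    have h1 := ih (by omega)
    have h2 : ∀ n : σ, HG lam φ f (k + 1) n = HG lam φ f k n +
        (((lam / 2 : ℝ) * e φ) * (((HG lam φ f k n : ℝ) : ℂ) * e (0 + f (k + 1) n)) +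
        ((lam / 2 : ℝ) * e (-φ)) * (((HG lam φ f k n : ℝ) : ℂ) * e (0 - f (k + 1) n))).re := by
      intro n
      have h3 := stepG lam φ f k n 0
      rw [e_zero, mul_one, mul_one] at h3
      have h4 := congrArg Complex.re h3
      rw [Complex.ofReal_re, add_assoc, Complex.add_re, Complex.ofReal_re] at h4
      exact h4
    simp_rw [h2]
    rw [sum_add_distrib, ← Complex.re_sum, sum_add_distrib, ← mul_sum, ← mul_sum]
    have key : ∀ c : ℤ, |c| = 1 → ‖∑ n ∈ S, ((HG lam φ f k n : ℝ) : ℂ) *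
        e (0 + c * f (k + 1) n)‖ ≤ (1 + lam) ^ k * W := by
      intro c hc
      have h4 := twistedG lam φ h0 f m S W hW k (by omega) (Function.update 0 (k + 1) c) (by
          intro i
          by_cases hi : i = k + 1
          · rw [hi, Function.update_self, hc]
          · rw [Function.update_of_ne hi]; simp) (by
          intro i hi
          rw [Function.update_of_ne (by omega)]
          rfl) (by
          refine ⟨k + 1, by rw [mem_Icc]; omega, ?_⟩
          rw [Function.update_self]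
          intro h5
          rw [h5] at hc
          simp at hc)
      have h5 : ∀ n, ∑ i ∈ Icc 1 m, ((Function.update (0 : ℕ → ℤ) (k + 1) c i : ℤ) : ℝ) * f i n =
          0 + c * f (k + 1) n := by
        intro n
        rw [sum_update m k hk 0 rfl c (fun i => f i n)]
        simp
      simp_rw [h5] at h4
      exact h4
    have e2 := key 1 (by norm_num)
    have e3 := key (-1) (by norm_num)
    simp only [Int.cast_one, one_mul, Int.cast_neg, neg_mul, ← sub_eq_add_neg] at e2 e3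
    have hl2 : ∀ (ψ : ℝ) (w : ℂ), ‖((lam / 2 : ℝ) : ℂ) * e ψ * w‖ = lam / 2 * ‖w‖ := by
      intro ψ w
      rw [norm_mul, norm_mul, norm_e, mul_one, Complex.norm_real, Real.norm_eq_abs,
        abs_of_nonneg (by positivity)]
    have e4 : (((lam / 2 : ℝ) : ℂ) * e φ * ∑ n ∈ S, (((HG lam φ f k n : ℝ) : ℂ) *
          e (0 + f (k + 1) n)) +
        ((lam / 2 : ℝ) : ℂ) * e (-φ) * ∑ n ∈ S, (((HG lam φ f k n : ℝ) : ℂ) *
          e (0 - f (k + 1) n))).re ≤ lam * ((1 + lam) ^ k * W) := by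
      refine (Complex.re_le_norm _).trans ?_
      refine (norm_add_le _ _).trans ?_
      rw [hl2, hl2]
      have e4 := mul_le_mul_of_nonneg_left e2 (by positivity : 0 ≤ lam / 2)
      have e5 := mul_le_mul_of_nonneg_left e3 (by positivity : 0 ≤ lam / 2)
      linarith
    rw [pow_succ]
    linarith

/-- the deviations of the cosine sums -/
lemma dev_cosG (φ η : ℝ) (hη0 : 0 < η) (hη1 : η ≤ 1) (f : ℕ → σ → ℝ) (m : ℕ) (S : Finset σ) (W : ℝ)
    (hW : SignBd S f m W) (hW0 : 0 ≤ W) :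
    ((S.filter fun n : σ => η * m ≤ ∑ i ∈ Icc 1 m,
      Real.cos (2 * Real.pi * (f i n + φ))).card : ℝ) ≤
      Real.exp (-(η ^ 2 * m / 8)) * (S.card + 2 ^ m * W) := by
  set lam : ℝ := η / 4 with hlam
  have hl0 : 0 ≤ lam := by positivity
  have hl1 : lam ≤ 1 / 4 := by rw [hlam]; linarith
  set T := S.filter fun n : σ => η * m ≤ ∑ i ∈ Icc 1 m,
      Real.cos (2 * Real.pi * (f i n + φ)) with hT
  have h1 : ∀ n ∈ T, Real.exp (η ^ 2 * m / 8) ≤ HG lam φ f m n := by
    intro n hn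
    rw [hT, mem_filter] at hn
    have h2 : ∏ i ∈ Icc 1 m, Real.exp (lam * Real.cos (2 * Real.pi *
        (f i n + φ)) - 2 * lam ^ 2) ≤ HG lam φ f m n := by
      rw [HG]
      refine prod_le_prod (fun i _ => (Real.exp_pos _).le) fun i _ => ?_
      set c := Real.cos (2 * Real.pi * (f i n + φ)) with hc
      have hc1 : |c| ≤ 1 := Real.abs_cos_le_one _
      have hc2 : |lam * c| ≤ 1 / 2 := by
        rw [abs_mul, abs_of_nonneg hl0]
        nlinarith [abs_nonneg c]
      refine le_trans ?_ (exp_le_one_add (lam * c) hc2)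
      rw [Real.exp_le_exp]
      have hc3 : c ^ 2 ≤ 1 := by
        rw [← sq_abs]; nlinarith [abs_nonneg c]
      nlinarith [mul_nonneg (sq_nonneg lam) (by linarith : 0 ≤ 1 - c ^ 2)]
    refine le_trans ?_ h2
    rw [← Real.exp_sum, Real.exp_le_exp, sum_sub_distrib, ← mul_sum, sum_const, Nat.card_Icc,
      Nat.add_sub_cancel, nsmul_eq_mul]
    have h3 := mul_le_mul_of_nonneg_left hn.2 hl0
    have h4 : η ^ 2 * m / 8 = lam * (η * m) - m * (2 * lam ^ 2) := by rw [hlam]; ring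
    linarith
  have h2 : (T.card : ℝ) * Real.exp (η ^ 2 * m / 8) ≤ S.card + 2 ^ m * W := by
    calc (T.card : ℝ) * Real.exp (η ^ 2 * m / 8) = ∑ n ∈ T, Real.exp (η ^ 2 * m / 8) := by
          rw [sum_const, nsmul_eq_mul]
      _ ≤ ∑ n ∈ T, HG lam φ f m n := sum_le_sum h1
      _ ≤ ∑ n ∈ S, HG lam φ f m n :=
          sum_le_sum_of_subset_of_nonneg (filter_subset _ _)
            fun n _ _ => HG_nonneg lam φ hl0 (by linarith) f m n
      _ ≤ S.card + ((1 + lam) ^ m - 1) * W := meanG lam φ hl0 f m S W hW m le_rfl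
      _ ≤ S.card + 2 ^ m * W := by
          have h3 : (1 + lam) ^ m ≤ 2 ^ m := pow_le_pow_left₀ (by positivity) (by linarith) m
          nlinarith
  have h3 : (T.card : ℝ) = Real.exp (-(η ^ 2 * m / 8)) * (T.card * Real.exp (η ^ 2 * m / 8)) := by
    rw [mul_comm (T.card : ℝ), ← mul_assoc, ← Real.exp_add, neg_add_cancel, Real.exp_zero, one_mul]
  rw [h3]
  exact mul_le_mul_of_nonneg_left h2 (Real.exp_pos _).le

/-- **the deviations of the exponential sums** -/
theorem devG (η : ℝ) (hη0 : 0 < η) (hη1 : η ≤ 1) (f : ℕ → σ → ℝ) (m : ℕ) (S : Finset σ) (W : ℝ)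
    (hW : SignBd S f m W) (hW0 : 0 ≤ W) :
    ((S.filter fun n : σ => 2 * η * m < ‖∑ i ∈ Icc 1 m, e (f i n)‖).card : ℝ) ≤
      4 * (Real.exp (-(η ^ 2 * m / 8)) * (S.card + 2 ^ m * W)) := by
  classical
  have h0 := dev_cosG 0 η hη0 hη1 f m S W hW hW0
  have h1 := dev_cosG (1 / 2) η hη0 hη1 f m S W hW hW0
  have h2 := dev_cosG (-(1 / 4)) η hη0 hη1 f m S W hW hW0
  have h3 := dev_cosG (1 / 4) η hη0 hη1 f m S W hW hW0
  set F : ℝ → Finset σ := fun φ => S.filter fun n : σ => η * m ≤ ∑ i ∈ Icc 1 m,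
      Real.cos (2 * Real.pi * (f i n + φ)) with hF
  have hsub : S.filter (fun n : σ => 2 * η * m < ‖∑ i ∈ Icc 1 m, e (f i n)‖) ⊆
      (F 0 ∪ F (1 / 2)) ∪ (F (-(1 / 4)) ∪ F (1 / 4)) := by
    intro n hn
    rw [mem_filter] at hn
    set z := ∑ i ∈ Icc 1 m, e (f i n) with hz
    have hre : ∀ t : ℝ, (e t).re = Real.cos (2 * Real.pi * t) := by
      intro t
      unfold Pool.Agent.H469R2.NK.e
      rw [Complex.exp_ofReal_mul_I_re]
    have him : ∀ t : ℝ, (e t).im = Real.sin (2 * Real.pi * t) := by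
      intro t
      unfold Pool.Agent.H469R2.NK.e
      rw [Complex.exp_ofReal_mul_I_im]
    have a0 : ∑ i ∈ Icc 1 m, Real.cos (2 * Real.pi * (f i n + 0)) = z.re := by
      rw [hz, Complex.re_sum]
      refine sum_congr rfl fun i _ => ?_
      rw [hre, add_zero]
    have a1 : ∑ i ∈ Icc 1 m, Real.cos (2 * Real.pi * (f i n + 1 / 2)) = -z.re := by
      rw [hz, Complex.re_sum, ← sum_neg_distrib]
      refine sum_congr rfl fun i _ => ?_
      rw [hre, mul_add, show 2 * Real.pi * (1 / 2) = Real.pi by ring, Real.cos_add_pi]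
    have a2 : ∑ i ∈ Icc 1 m, Real.cos (2 * Real.pi * (f i n + -(1 / 4))) =
        z.im := by
      rw [hz, Complex.im_sum]
      refine sum_congr rfl fun i _ => ?_
      rw [him, mul_add, show 2 * Real.pi * (-(1 / 4)) = -(Real.pi / 2) by ring, ← sub_eq_add_neg,
        Real.cos_sub_pi_div_two]
    have a3 : ∑ i ∈ Icc 1 m, Real.cos (2 * Real.pi * (f i n + 1 / 4)) = -z.im := by
      rw [hz, Complex.im_sum, ← sum_neg_distrib]
      refine sum_congr rfl fun i _ => ?_
      rw [him, mul_add, show 2 * Real.pi * (1 / 4) = Real.pi / 2 by ring, Real.cos_add_pi_div_two]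
    have h4 : ‖z‖ ≤ |z.re| + |z.im| := Complex.norm_le_abs_re_add_abs_im z
    have h5 : η * m ≤ |z.re| ∨ η * m ≤ |z.im| := by
      by_contra hcon
      push Not at hcon
      have := hn.2
      linarith [hcon.1, hcon.2]
    simp only [mem_union, hF, mem_filter]
    rcases h5 with h5 | h5
    · rcases le_abs.1 h5 with h6 | h6
      · exact Or.inl (Or.inl ⟨hn.1, by rw [a0]; exact h6⟩)
      · exact Or.inl (Or.inr ⟨hn.1, by rw [a1]; exact h6⟩)
    · rcases le_abs.1 h5 with h6 | h6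
      · exact Or.inr (Or.inl ⟨hn.1, by rw [a2]; exact h6⟩)
      · exact Or.inr (Or.inr ⟨hn.1, by rw [a3]; exact h6⟩)
  have h4 : ((S.filter fun n : σ => 2 * η * m < ‖∑ i ∈ Icc 1 m, e (f i n)‖).card : ℝ)
      ≤ ((F 0).card + (F (1 / 2)).card) + ((F (-(1 / 4))).card + (F (1 / 4)).card) := by
    have h5 := (card_le_card hsub).trans ((card_union_le _ _).trans
      (add_le_add (card_union_le _ _) (card_union_le _ _)))
    exact_mod_cast h5
  linarith

end Pool.Agent.Helper478.Gen
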