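import Pool.Agent.Helper478_Gen.Riesz
import Pool.Agent.Helper478_Surds.Block

/-!
# All windows at once, from bounds for signed sums along progressions of places
-/

set_option autoImplicit false

namespace Pool.Agent.Helper478.Gen

open Finset
open Pool.Agent.H469R2.NK (e norm_e e_add e_zero conj_e)
open Pool.Agent.Helper478.Surds (windows)

lemma residue (J L : ℕ) (hJ : 1 ≤ J) {M : Type} [AddCommMonoid M] (g : ℕ → M) :
    ∑ i ∈ Icc 1 L, g i = ∑ s ∈ Icc 1 J, ∑ l ∈ Icc 1 ((L + J - s) / J), g (J * l + s - J) := by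
  rw [Finset.sum_sigma']
  refine Finset.sum_nbij' (fun i => ⟨(i - 1) % J + 1, (i - 1) / J + 1⟩)
    (fun p => J * p.2 + p.1 - J) ?_ ?_ ?_ ?_ ?_
  · intro i hi
    rw [mem_Icc] at hi
    rw [mem_sigma, mem_Icc, mem_Icc]
    have h1 := Nat.mod_lt (i - 1) (by omega : 0 < J)
    have h2 := Nat.div_add_mod (i - 1) J
    refine ⟨⟨Nat.succ_le_succ (Nat.zero_le _), h1⟩, Nat.succ_le_succ (Nat.zero_le _), ?_⟩
    simp only
    rw [Nat.le_div_iff_mul_le (by omega)]
    have h3 : ((i - 1) / J + 1) * J = J * ((i - 1) / J) + J := by ring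
    rw [h3]
    omega
  · rintro ⟨s, l⟩ hp
    rw [mem_sigma, mem_Icc, mem_Icc] at hp
    simp only at hp
    obtain ⟨⟨h1, h2⟩, h3, h4⟩ := hp
    rw [Nat.le_div_iff_mul_le (by omega)] at h4
    have h5 : J ≤ J * l := Nat.le_mul_of_pos_right _ h3
    have h6 : l * J = J * l := Nat.mul_comm _ _
    rw [mem_Icc]
    simp only
    omega
  · intro i hi
    rw [mem_Icc] at hi
    simp only
    have h2 := Nat.div_add_mod (i - 1) J
    have h3 : J * ((i - 1) / J + 1) = J * ((i - 1) / J) + J := by ring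
    rw [h3]
    omega
  · rintro ⟨s, l⟩ hp
    rw [mem_sigma, mem_Icc, mem_Icc] at hp
    simp only at hp
    obtain ⟨⟨h1, h2⟩, h3, h4⟩ := hp
    obtain ⟨l, rfl⟩ : ∃ l', l = l' + 1 := ⟨l - 1, by omega⟩
    have h5 : J * (l + 1) + s - J - 1 = (s - 1) + J * l := by
      have : J * (l + 1) = J * l + J := by ring
      omega
    simp only
    rw [h5, Nat.add_mul_mod_self_left, Nat.add_mul_div_left _ _ (by omega : 0 < J),
      Nat.mod_eq_of_lt (by omega), Nat.div_eq_of_lt (by omega)]
    congr 1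
    · omega
    · simp
  · intro i hi
    rw [mem_Icc] at hi
    simp only
    congr 1
    have h2 := Nat.div_add_mod (i - 1) J
    have h3 : J * ((i - 1) / J + 1) = J * ((i - 1) / J) + J := by ring
    rw [h3]
    omega

/-- **all windows** -/
theorem absW {ι : Type} (A : Finset ι) (f : ι → ℕ → ℕ → ℝ) (P : ι → ℕ → Prop) (hi : ι → ℕ) (N J m : ℕ) (η W : ℝ)
    (hJ : 1 ≤ J) (hm : 1 ≤ m) (hη0 : 0 < η) (hη1 : η ≤ 1) (hW0 : 0 ≤ W)
    (h2W : ∀ k : ℕ, k < 2 * m → 2 ^ k * W ≤ N)
    (hW : ∀ a ∈ A, ∀ w k : ℕ, m ≤ k → k < 2 * m → P a w → w + J * k ≤ hi a →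
      SignBd (Ioc 0 N) (fun i n => f a (w + J * i) n) k W) :
    ∃ T : Finset ℕ, (T.card : ℝ) ≤ ∑ a ∈ A, ((hi a : ℝ) + 1) * (m * (8 * N * Real.exp (-(η ^ 2 * m / 8)))) ∧
      ∀ n ∈ Ioc 0 N, n ∉ T → ∀ a ∈ A, ∀ u v : ℕ, J ≤ u →
        (∀ w, u < w + J → P a w) → v ≤ hi a → u + J * (m + 1) ≤ v →
        ‖∑ i ∈ Icc 1 (v - u), e (f a (u + i) n)‖ ≤ 2 * η * ((v : ℝ) - u) := by
  classical
  let Bad : ι → ℕ → ℕ → Finset ℕ := fun a w k =>
    if P a w ∧ w + J * k ≤ hi a then
      (Ioc 0 N).filter fun n : ℕ => 2 * η * k < ‖∑ i ∈ Icc 1 k, e (f a (w + J * i) n)‖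
    else ∅
  have hbad : ∀ a ∈ A, ∀ w ∈ range (hi a + 1), ∀ k ∈ Ico m (2 * m),
      ((Bad a w k).card : ℝ) ≤ 8 * N * Real.exp (-(η ^ 2 * m / 8)) := by
    intro a ha w _ k hk
    simp only [Bad]
    rw [mem_Ico] at hk
    split_ifs with hcond
    · have g1 := devG η hη0 hη1 (fun i n => f a (w + J * i) n) k (Ioc 0 N) W
        (hW a ha w k hk.1 hk.2 hcond.1 hcond.2) hW0
      refine g1.trans ?_
      rw [Nat.card_Ioc, Nat.sub_zero]
      have g2 := h2W k hk.2
      have g3 : Real.exp (-(η ^ 2 * k / 8)) ≤ Real.exp (-(η ^ 2 * m / 8)) := by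
        apply Real.exp_le_exp.2
        have : (m : ℝ) ≤ k := by exact_mod_cast hk.1
        have g4 : η ^ 2 * m ≤ η ^ 2 * k := by gcongr
        linarith
      calc 4 * (Real.exp (-(η ^ 2 * k / 8)) * ((N : ℝ) + 2 ^ k * W)) ≤
            4 * (Real.exp (-(η ^ 2 * m / 8)) * (N + N)) := by gcongr
        _ = _ := by ring
    · simp only [card_empty, Nat.cast_zero]
      positivity
  refine ⟨A.biUnion fun a => (range (hi a + 1)).biUnion fun w =>
    (Ico m (2 * m)).biUnion fun k => Bad a w k, ?_, ?_⟩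
  · have g1 : (A.biUnion fun a => (range (hi a + 1)).biUnion fun w =>
        (Ico m (2 * m)).biUnion fun k => Bad a w k).card ≤
        ∑ a ∈ A, ∑ w ∈ range (hi a + 1), ∑ k ∈ Ico m (2 * m), (Bad a w k).card :=
      card_biUnion_le.trans (sum_le_sum fun a _ => card_biUnion_le.trans
        (sum_le_sum fun w _ => card_biUnion_le))
    have g2 : ((A.biUnion fun a => (range (hi a + 1)).biUnion fun w =>
        (Ico m (2 * m)).biUnion fun k => Bad a w k).card : ℝ) ≤
        ∑ a ∈ A, ∑ w ∈ range (hi a + 1), ∑ k ∈ Ico m (2 * m), ((Bad a w k).card : ℝ) := by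
      exact_mod_cast g1
    refine g2.trans (sum_le_sum fun a ha => ?_)
    refine (sum_le_sum fun w hw => sum_le_sum fun k hk => hbad a ha w hw k hk).trans ?_
    simp only [sum_const, card_range, Nat.card_Ico, nsmul_eq_mul]
    rw [show 2 * m - m = m by omega]
    push_cast
    exact le_rfl
  · intro n hn hnT a ha u v huJ hP hv huv
    have hJm : J ≤ J * (m + 1) := Nat.le_mul_of_pos_right _ (by omega)
    set L := v - u with hL
    rw [residue J L hJ (fun i => e (f a (u + i) n))]
    have hlen : ∑ s ∈ Icc 1 J, ((L + J - s) / J) = L := by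
      have h := residue J L hJ (fun _ => (1 : ℕ))
      simp only [sum_const, Nat.card_Icc, Nat.add_sub_cancel, smul_eq_mul, mul_one] at h
      exact h.symm
    have hL1 : J * (m + 1) ≤ L := by omega
    have hblock : ∀ s ∈ Icc 1 J, ‖∑ l ∈ Icc 1 ((L + J - s) / J), e (f a (u + (J * l + s - J)) n)‖ ≤
        2 * η * (((L + J - s) / J : ℕ) : ℝ) := by
      intro s hs
      rw [mem_Icc] at hs
      set K := (L + J - s) / J with hK
      have hmK : m ≤ K := by
        rw [hK, Nat.le_div_iff_mul_le (by omega)]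
        have : m * J = J * m := Nat.mul_comm _ _
        have h2 : J * (m + 1) = J * m + J := by ring
        omega
      have hKJ : J * K ≤ L + J - s := by
        rw [hK]
        exact Nat.mul_div_le _ _
      have hw := windows (fun l => e (f a ((u + s - J) + J * l) n)) m K (2 * η) hm (by
        intro u' k hk1 hk2 hk3
        by_contra hcon
        push Not at hcon
        apply hnT
        have hJk : J * u' + J * k ≤ J * K := by
          rw [← Nat.mul_add]
          exact Nat.mul_le_mul_left _ hk3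
        rw [mem_biUnion]
        refine ⟨a, ha, ?_⟩
        rw [mem_biUnion]
        refine ⟨u + s - J + J * u', by rw [mem_range]; omega, ?_⟩
        rw [mem_biUnion]
        refine ⟨k, by rw [mem_Ico]; exact ⟨hk1, hk2⟩, ?_⟩
        simp only [Bad]
        rw [if_pos ⟨hP _ (by omega), by omega⟩, mem_filter]
        refine ⟨hn, ?_⟩
        have h1 : ∀ i, u + s - J + J * (u' + i) = u + s - J + J * u' + J * i := by
          intro i
          rw [Nat.mul_add]; omega
        simp_rw [h1] at hcon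
        exact hcon) K 0 hmK (by omega)
      simp only [zero_add] at hw
      refine le_trans (le_of_eq ?_) hw
      congr 1
      refine sum_congr rfl fun l hl => ?_
      rw [mem_Icc] at hl
      have h5 : J ≤ J * l := Nat.le_mul_of_pos_right _ hl.1
      have h6 : u + (J * l + s - J) = u + s - J + J * l := by omega
      rw [h6]
    refine (norm_sum_le _ _).trans ((sum_le_sum hblock).trans ?_)
    rw [← mul_sum]
    have hlen' : ∑ s ∈ Icc 1 J, (((L + J - s) / J : ℕ) : ℝ) = (v : ℝ) - u := by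
      rw [← Nat.cast_sum, hlen, hL, Nat.cast_sub (by omega)]
    rw [hlen']

end Pool.Agent.Helper478.Gen
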